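import Pool.Agent.W792.GK.Stm

/-!
Moments under group homomorphisms (task `S_MOM` of the project GK).
-/

set_option autoImplicit false

namespace Pool.Agent.W978.GKMom

open Pool.Agent.W792.GK

variable {Γ₀ Γ : Type} [AddCommGroup Γ₀] [AddCommGroup Γ]

theorem stp_comp (φ : Γ₀ →+ Γ) (h : Γ₀ →₀ ℂ) (w : Γ → ℝ) (U : Γ → ℂ) (x : Γ₀) :
    stp (h.mapDomain φ) w U (φ x) = stp h (fun x => w (φ x)) (fun x => U (φ x)) x := by
  unfold stp
  rw [Finsupp.sum_mapDomain_index (fun b => by simp) (fun b m₁ m₂ => by ring)]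
  simp only [map_sub]

theorem iter_comp (φ : Γ₀ →+ Γ) (h : Γ₀ →₀ ℂ) (w : Γ → ℝ) (m : ℕ) (U : Γ → ℂ) :
    ∀ x : Γ₀, ((stp (h.mapDomain φ) w)^[m] U) (φ x) =
      ((stp h (fun x => w (φ x)))^[m] (fun x => U (φ x))) x := by
  induction m with
  | zero => intro x; rfl
  | succ m ih =>
    intro x
    rw [Function.iterate_succ_apply', Function.iterate_succ_apply', stp_comp]
    congr 1
    funext y
    exact ih y

theorem nb_succ (h : Γ₀ →₀ ℂ) (n : ℕ) : nb h n ⊆ nb h (n + 1) := by
  classical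
  intro x hx
  rw [nb]
  exact Finset.mem_union_left _ hx

theorem nb_mono (h : Γ₀ →₀ ℂ) {m n : ℕ} (hmn : m ≤ n) : nb h m ⊆ nb h n := by
  induction n, hmn using Nat.le_induction with
  | base => exact subset_rfl
  | succ n _ ih => exact ih.trans (nb_succ h n)

theorem nb_sub (h : Γ₀ →₀ ℂ) {n : ℕ} {x y : Γ₀} (hx : x ∈ nb h n) (hy : y ∈ h.support) :
    x - y ∈ nb h (n + 1) := by
  classical
  rw [nb]
  refine Finset.mem_union_right _ (Finset.mem_image.2 ⟨(x, y), Finset.mem_product.2 ⟨hx, hy⟩, rfl⟩)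

theorem local_iter (h : Γ₀ →₀ ℂ) (w : Γ₀ → ℝ) (m : ℕ) : ∀ (l : ℕ) (U U' : Γ₀ → ℂ),
    (∀ x ∈ nb h (l + m), U x = U' x) → ∀ x ∈ nb h l,
      ((stp h w)^[m] U) x = ((stp h w)^[m] U') x := by
  induction m with
  | zero => intro l U U' hU x hx; exact hU x hx
  | succ m ih =>
    intro l U U' hU x hx
    rw [Function.iterate_succ_apply', Function.iterate_succ_apply']
    have key := ih (l + 1) U U' (by rw [show l + 1 + m = l + (m + 1) by ring]; exact hU)
    unfold stp
    rw [Finsupp.sum, Finsupp.sum]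
    congr 1
    · refine Finset.sum_congr rfl fun y hy => ?_
      have := key (x - y) (nb_sub h hx hy)
      unfold stp at this
      rw [this]
    · have := key x (nb_succ h l hx)
      unfold stp at this
      rw [this]

theorem main : S_MOM := by
  classical
  intro Γ₀ Γ _ _ φ h n hn w m hm
  unfold mom
  have h1 := iter_comp φ h w m (fun x => if x = 0 then 1 else 0) 0
  rw [map_zero] at h1
  rw [h1]
  refine local_iter h (fun x => w (φ x)) m 0 _ _ ?_ 0 ?_
  · intro x hx
    rw [Nat.zero_add] at hx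
    by_cases h2 : x = 0
    · subst h2
      simp
    · rw [if_neg (fun h3 => h2 (hn x (nb_mono h hm hx) h3)), if_neg h2]
  · rw [nb]
    exact Finset.mem_singleton_self 0

end Pool.Agent.W978.GKMom
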